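import Pool.Agent.Helper51.PP.Spec

/-!
# Swarm PC (MP_b460e8_pr), part DEN: functions of mean zero are nearly coboundaries.
-/

set_option autoImplicit false

namespace Pool.Agent.Helper21.PC.DEN

open MeasureTheory ProbabilityTheory Filter Topology Pool.Agent.Helper51.PP
open scoped ENNReal BigOperators

section
variable {Ω E : Type} [MeasurableSpace Ω] [Fintype E] [Nonempty E]
  {μ : Measure Ω} [IsProbabilityMeasure μ] {T : Ω → E → Ω} {rev : E → E}

theorem meas_PR (hM : MPS μ T rev) {h : Ω → ℝ} (hh : Measurable h) : Measurable (PR T h) := by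
  unfold PR
  exact (Finset.measurable_sum _ fun e _ => hh.comp (hM.mp e).measurable).const_mul _

theorem memLp_PR (hM : MPS μ T rev) {h : Ω → ℝ} (hh : MemLp h 2 μ) : MemLp (PR T h) 2 μ := by
  unfold PR
  exact (memLp_finsetSum _ fun e _ => hh.comp_measurePreserving (hM.mp e)).const_mul _

theorem memLp_bdd {h : Ω → ℝ} (hh : Measurable h) (hb : ∃ H : ℝ, ∀ ω, |h ω| ≤ H) :
    MemLp h 2 μ := by
  obtain ⟨H, hH⟩ := hb
  exact MemLp.of_bound hh.aestronglyMeasurable H (Eventually.of_forall hH)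

/-- the averaging operator is symmetric -/
theorem symm_PR (hM : MPS μ T rev) {h u : Ω → ℝ} (hh : MemLp h 2 μ) (hu : MemLp u 2 μ) :
    ∫ ω, PR T h ω * u ω ∂μ = ∫ ω, h ω * PR T u ω ∂μ := by
  have h1 : ∀ e, ∫ ω, h (T ω e) * u ω ∂μ = ∫ ω, h ω * u (T ω (rev e)) ∂μ := by
    intro e
    have h2 := (hM.mp (rev e))
    have h3 : AEStronglyMeasurable (fun ω => h (T ω e) * u ω)
        (Measure.map (fun ω => T ω (rev e)) μ) := by
      rw [h2.map_eq]
      exact (hh.comp_measurePreserving (hM.mp e)).aestronglyMeasurable.mul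
        hu.aestronglyMeasurable
    have h4 := integral_map h2.measurable.aemeasurable h3
    rw [h2.map_eq] at h4
    rw [h4]
    apply integral_congr_ae
    filter_upwards [hM.back (rev e)] with ω hω
    rw [hM.inv] at hω
    rw [hω]
  have i1 : ∀ e, Integrable (fun ω => h (T ω e) * u ω) μ := fun e =>
    (hh.comp_measurePreserving (hM.mp e)).integrable_mul hu
  have i2 : ∀ e, Integrable (fun ω => h ω * u (T ω e)) μ := fun e =>
    hh.integrable_mul (hu.comp_measurePreserving (hM.mp e))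
  have e1 : ∀ ω, PR T h ω * u ω = (Fintype.card E : ℝ)⁻¹ * ∑ e, h (T ω e) * u ω := by
    intro ω
    unfold PR
    rw [mul_assoc, Finset.sum_mul]
  have e2 : ∀ ω, h ω * PR T u ω = (Fintype.card E : ℝ)⁻¹ * ∑ e, h ω * u (T ω e) := by
    intro ω
    unfold PR
    rw [← Finset.mul_sum]
    ring
  simp_rw [e1, e2]
  rw [integral_const_mul, integral_const_mul, integral_finsetSum _ fun e _ => i1 e,
    integral_finsetSum _ fun e _ => i2 e]
  congr 1
  simp_rw [h1]
  exact (Equiv.sum_comp (⟨rev, rev, hM.inv, hM.inv⟩ : E ≃ E)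
    fun e => ∫ ω, h ω * u (T ω e) ∂μ)

theorem l1_le_l2 {F : Ω → ℝ} (hF : MemLp F 2 μ) :
    ∫ ω, |F ω| ∂μ ≤ (eLpNorm F 2 μ).toReal := by
  have h1 : ∫ ω, |F ω| ∂μ = (eLpNorm F 1 μ).toReal := by
    rw [eLpNorm_one_eq_lintegral_enorm, ← integral_norm_eq_lintegral_enorm hF.1]
    rfl
  rw [h1]
  exact ENNReal.toReal_mono hF.eLpNorm_ne_top
    (eLpNorm_le_eLpNorm_of_exponent_le (by norm_num) hF.1)

/-- the coboundaries of bounded functions -/
def W (hM : MPS μ T rev) : Submodule ℝ (Lp ℝ 2 μ) where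
  carrier := {x | ∃ h : Ω → ℝ, Measurable h ∧ (∃ H : ℝ, ∀ ω, |h ω| ≤ H) ∧
    x =ᵐ[μ] fun ω => h ω - PR T h ω}
  zero_mem' := by
    refine ⟨fun _ => 0, measurable_const, ⟨0, by simp⟩, ?_⟩
    filter_upwards [Lp.coeFn_zero ℝ 2 μ] with ω hω
    rw [hω]
    simp [PR]
  add_mem' := by
    rintro x y ⟨h, h1, ⟨H, h2⟩, h3⟩ ⟨g, g1, ⟨G, g2⟩, g3⟩
    refine ⟨fun ω => h ω + g ω, h1.add g1, ⟨H + G, fun ω => (abs_add_le _ _).trans
      (add_le_add (h2 ω) (g2 ω))⟩, ?_⟩
    filter_upwards [Lp.coeFn_add x y, h3, g3] with ω h4 h5 h6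
    rw [h4, Pi.add_apply, h5, h6]
    simp only [PR, Finset.sum_add_distrib]
    ring
  smul_mem' := by
    rintro c x ⟨h, h1, ⟨H, h2⟩, h3⟩
    refine ⟨fun ω => c * h ω, h1.const_mul c, ⟨|c| * H, fun ω => by
      rw [abs_mul]; exact mul_le_mul_of_nonneg_left (h2 ω) (abs_nonneg c)⟩, ?_⟩
    filter_upwards [Lp.coeFn_smul c x, h3] with ω h4 h5
    rw [h4, Pi.smul_apply, h5, smul_eq_mul]
    simp only [PR, ← Finset.mul_sum]
    ring

theorem orth (hL : S_LIO) (hM : MPS μ T rev) (hE : ∃ e, Ergodic (fun ω => T ω e) μ)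
    (u : Lp ℝ 2 μ) (hu : u ∈ (W hM)ᗮ) : ∃ c : ℝ, u =ᵐ[μ] fun _ => c := by
  have hu2 : MemLp u 2 μ := Lp.memLp u
  apply hL μ T rev hM hE u hu2
  -- test against bounded functions
  have h1 : ∀ h : Ω → ℝ, Measurable h → (∃ H : ℝ, ∀ ω, |h ω| ≤ H) →
      ∫ ω, h ω * (u ω - PR T u ω) ∂μ = 0 := by
    intro h hh hb
    have hh2 : MemLp h 2 μ := memLp_bdd hh hb
    have hP2 : MemLp (PR T h) 2 μ := memLp_PR hM hh2
    have hW : (hh2.sub hP2).toLp _ ∈ W hM :=
      ⟨h, hh, hb, (MemLp.coeFn_toLp _)⟩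
    have h2 := (Submodule.mem_orthogonal _ _).1 hu _ hW
    rw [L2.inner_def] at h2
    have h3 : ∫ ω, (h ω - PR T h ω) * u ω ∂μ = 0 := by
      rw [← h2]
      apply integral_congr_ae
      filter_upwards [MemLp.coeFn_toLp (hh2.sub hP2)] with ω hω
      rw [hω]
      simp [mul_comm]
    have j1 : Integrable (fun ω => h ω * u ω) μ := hh2.integrable_mul hu2
    have j2 : Integrable (fun ω => h ω * PR T u ω) μ := hh2.integrable_mul (memLp_PR hM hu2)
    have j3 : Integrable (fun ω => PR T h ω * u ω) μ := hP2.integrable_mul hu2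
    have h4 : ∫ ω, h ω * (u ω - PR T u ω) ∂μ =
        ∫ ω, h ω * u ω ∂μ - ∫ ω, h ω * PR T u ω ∂μ := by
      rw [← integral_sub j1 j2]
      congr 1
      ext ω
      ring
    have h5 : ∫ ω, (h ω - PR T h ω) * u ω ∂μ =
        ∫ ω, h ω * u ω ∂μ - ∫ ω, PR T h ω * u ω ∂μ := by
      rw [← integral_sub j1 j3]
      congr 1
      ext ω
      ring
    rw [h4, ← symm_PR hM hh2 hu2, ← h5, h3]
  have h2 : (fun ω => u ω - PR T u ω) =ᵐ[μ] 0 := by
    apply Integrable.ae_eq_zero_of_forall_setIntegral_eq_zero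
    · exact (hu2.sub (memLp_PR hM hu2)).integrable (by norm_num)
    · intro s hs _
      have h3 := h1 (s.indicator fun _ => 1) (measurable_const.indicator hs)
        ⟨1, fun ω => by
          by_cases hω : ω ∈ s
          · simp [hω]
          · simp [hω]⟩
      rw [← integral_indicator hs, ← h3]
      congr 1
      ext ω
      by_cases hω : ω ∈ s
      · simp [hω]
      · simp [hω]
  filter_upwards [h2] with ω hω
  have : (u ω - PR T u ω) = 0 := hω
  linarith

end

theorem main (hL : S_LIO) : S_DEN := by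
  intro Ω E _ _ _ μ _ T rev hM hE V hV hVi ε hε
  -- approximation by a simple function
  have hV1 : MemLp V 1 μ := memLp_one_iff_integrable.2 hVi
  obtain ⟨g, hg, -⟩ := hV1.exists_simpleFunc_eLpNorm_sub_lt (by norm_num)
    (ε := ENNReal.ofReal (ε / 4)) (by simpa using hε)
  have hgb : ∃ H : ℝ, ∀ ω, |g ω| ≤ H := g.exists_forall_norm_le
  have hg2 : MemLp g 2 μ := memLp_bdd g.measurable hgb
  have hgi : Integrable g μ := hg2.integrable (by norm_num)
  have hVg : ∫ ω, |V ω - g ω| ∂μ ≤ ε / 4 := by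
    have h1 : ∫ ω, |V ω - g ω| ∂μ = (eLpNorm (V - ⇑g) 1 μ).toReal := by
      rw [eLpNorm_one_eq_lintegral_enorm, ← integral_norm_eq_lintegral_enorm
        (hVi.sub hgi).aestronglyMeasurable]
      rfl
    rw [h1]
    exact ENNReal.toReal_le_of_le_ofReal (by positivity) hg.le
  set a : ℝ := ∫ ω, V ω ∂μ with ha
  set c : ℝ := ∫ ω, g ω ∂μ with hc
  have hac : |a - c| ≤ ε / 4 := by
    rw [ha, hc, ← integral_sub hVi hgi]
    exact (norm_integral_le_integral_norm (fun ω => V ω - g ω)).trans hVg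
  have hF2 : MemLp (fun ω => g ω - c) 2 μ := hg2.sub (memLp_const c)
  -- the mean zero part is in the closure
  have hcl : hF2.toLp _ ∈ (W hM).topologicalClosure := by
    rw [← Submodule.orthogonal_orthogonal_eq_closure]
    rw [Submodule.mem_orthogonal]
    intro u hu
    obtain ⟨b, hb⟩ := orth hL hM hE u hu
    rw [L2.inner_def]
    have h1 : ∫ ω, inner ℝ (u ω) ((hF2.toLp _ : Lp ℝ 2 μ) ω) ∂μ = ∫ ω, b * (g ω - c) ∂μ := by
      apply integral_congr_ae
      filter_upwards [hb, MemLp.coeFn_toLp hF2] with ω h2 h3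
      rw [h2, h3]
      simp [mul_comm]
    rw [h1, integral_const_mul, integral_sub hgi (integrable_const _)]
    simp [hc]
  have hcl' : hF2.toLp _ ∈ closure ((W hM : Submodule ℝ (Lp ℝ 2 μ)) : Set (Lp ℝ 2 μ)) := hcl
  obtain ⟨w, hw, hd⟩ := Metric.mem_closure_iff.1 hcl' (ε / 4) (by positivity)
  obtain ⟨h, hh, hb, hwh⟩ := hw
  refine ⟨h, hh, hb, ?_⟩
  have hh2 : MemLp h 2 μ := memLp_bdd hh hb
  have hP2 := memLp_PR hM hh2
  have hG2 : MemLp (fun ω => (g ω - c) - (h ω - PR T h ω)) 2 μ := hF2.sub (hh2.sub hP2)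
  have h1 : ∫ ω, |(g ω - c) - (h ω - PR T h ω)| ∂μ ≤ ε / 4 := by
    refine (l1_le_l2 hG2).trans ?_
    have h2 : (eLpNorm (fun ω => (g ω - c) - (h ω - PR T h ω)) 2 μ).toReal =
        ‖hF2.toLp _ - w‖ := by
      rw [Lp.norm_def]
      congr 1
      apply eLpNorm_congr_ae
      filter_upwards [Lp.coeFn_sub (hF2.toLp _) w, MemLp.coeFn_toLp hF2, hwh] with ω h3 h4 h5
      rw [h3, Pi.sub_apply, h4, h5]
    rw [h2, ← dist_eq_norm]
    exact hd.le
  have i1 : Integrable (fun ω => |V ω - g ω|) μ := (hVi.sub hgi).abs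
  have i2 : Integrable (fun ω => |(g ω - c) - (h ω - PR T h ω)|) μ :=
    (hG2.integrable (by norm_num)).abs
  have i4 : Integrable (fun ω => |V ω - g ω| + |a - c|) μ := i1.add (integrable_const _)
  have i3 : Integrable (fun ω => |V ω - a - (h ω - PR T h ω)|) μ :=
    ((hVi.sub (integrable_const a)).sub ((hh2.sub hP2).integrable (by norm_num))).abs
  calc ∫ ω, |V ω - a - (h ω - PR T h ω)| ∂μ
      ≤ ∫ ω, (|V ω - g ω| + |a - c| + |(g ω - c) - (h ω - PR T h ω)|) ∂μ := by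
        apply integral_mono i3 (i4.add i2)
        intro ω
        have e : V ω - a - (h ω - PR T h ω) = (V ω - g ω) + (-(a - c)) +
          ((g ω - c) - (h ω - PR T h ω)) := by ring
        change |V ω - a - (h ω - PR T h ω)| ≤
          (|V ω - g ω| + |a - c|) + |(g ω - c) - (h ω - PR T h ω)|
        rw [e]
        refine (abs_add_le _ _).trans (add_le_add ((abs_add_le _ _).trans ?_) le_rfl)
        rw [abs_neg]
    _ = ∫ ω, |V ω - g ω| ∂μ + |a - c| + ∫ ω, |(g ω - c) - (h ω - PR T h ω)| ∂μ := by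
        rw [integral_add i4 i2, integral_add i1 (integrable_const _)]
        simp
    _ ≤ ε / 4 + ε / 4 + ε / 4 := by gcongr
    _ ≤ ε := by linarith

end Pool.Agent.Helper21.PC.DEN
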